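import Pool.Agent.L7h71.CC.H2

set_option autoImplicit false

/-!
# Vaught's conjecture for two-variable logic with counting quantifiers

Vaught's conjecture, in perfect-set form, holds for all first-order theories axiomatised (by finitely
or infinitely many axioms) in two-variable logic with counting quantifiers `C²`, in all countable
relational languages, and more generally for all Borel classes closed under `C²`-equivalence. The
relations may have any arities and may be required to be (graphs of) functions, since this can be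
expressed in `C²`.

The theorem below allows in addition members whose `C²`-class is not contained in the class, if they
belong to one of the classes `V` of the starting result `FiniteFlips`.
-/

namespace Pool.Agent.Results.MP_5df2c5_lc.CountingLogic

open Pool.Agent.Results.MP_5df2c5_lc.FiniteFlips (Str Iso Tame)
open Set MeasureTheory

/-- The formulas of two-variable logic with counting over relations of arities `a 0, a 1, ...`. The
variables are `false` and `true`. -/
inductive Fm (a : ℕ → ℕ) : Type
  /-- the variables have equal values -/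
  | eq : Bool → Bool → Fm a
  /-- the relation number `i` holds for the tuple of variables `s` -/
  | rel : (i : ℕ) → (s : Fin (a i) → Bool) → Fm a
  /-- negation -/
  | neg : Fm a → Fm a
  /-- conjunction -/
  | and : Fm a → Fm a → Fm a
  /-- `∃^{≥k} b φ`: there are at least `k` values of the variable `b` such that `φ` holds -/
  | atLeast : (k : ℕ) → (b : Bool) → Fm a → Fm a

/-- The formula holds in the structure `x` for the values `v` of the variables. -/
def Sat {a : ℕ → ℕ} (x : Str a) : Fm a → (Bool → ℕ) → Prop
  | .eq b c, v => v b = v c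
  | .rel i s, v => x i (v ∘ s) = true
  | .neg φ, v => ¬ Sat x φ v
  | .and φ ψ, v => Sat x φ v ∧ Sat x ψ v
  | .atLeast k b φ, v => ∃ F : Finset ℕ, F.card = k ∧ ∀ z ∈ F, Sat x φ (Function.update v b z)

/-- The universal closure of the formula holds in `x`. -/
def Holds {a : ℕ → ℕ} (x : Str a) (φ : Fm a) : Prop := ∀ v : Bool → ℕ, Sat x φ v

/-- The structures satisfy the same sentences of two-variable logic with counting. -/
def Equivalent {a : ℕ → ℕ} (x y : Str a) : Prop := ∀ φ : Fm a, Holds x φ ↔ Holds y φ

/-- The class has countably many isomorphism types, or it contains a continuous family, indexed by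
the Cantor space, of pairwise non-isomorphic structures. -/
def CountableOrPerfect {a : ℕ → ℕ} (B : Set (Str a)) : Prop :=
  (∃ f : ℕ → Str a, ∀ x ∈ B, ∃ n, Iso (f n) x) ∨
  (∃ g : (ℕ → Bool) → Str a, Continuous g ∧ (∀ c, g c ∈ B) ∧ ∀ c d, Iso (g c) (g d) → c = d)

variable {a : ℕ → ℕ}

/-- translation -/
def tr : Fm a → L7h71.CC.Fo a
  | .eq b c => .eq b c
  | .rel i s => .rel i s
  | .neg φ => .neg (tr φ)
  | .and φ ψ => .and (tr φ) (tr ψ)
  | .atLeast k true φ => .cnt k (tr φ)
  | .atLeast k false φ => .sub not (.cnt k (.sub not (tr φ)))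

theorem exists_finset {p : ℕ → Prop} {k : ℕ} : (∃ F : Finset ℕ, F.card = k ∧ ∀ z ∈ F, p z) ↔
    ∃ w : Fin k → ℕ, Function.Injective w ∧ ∀ j, p (w j) := by
  constructor
  · rintro ⟨F, hF, h⟩
    refine ⟨fun j => (F.equivFin.symm (Fin.cast hF.symm j) : ℕ), ?_, fun j => h _ (F.equivFin.symm
      (Fin.cast hF.symm j)).2⟩
    intro j l hjl
    have := F.equivFin.symm.injective (Subtype.ext hjl)
    simpa using this
  · rintro ⟨w, hw, h⟩
    refine ⟨Finset.univ.map ⟨w, hw⟩, by simp, fun z hz => ?_⟩
    obtain ⟨j, _, rfl⟩ := Finset.mem_map.1 hz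
    exact h j

theorem sat_tr (x : Str a) (φ : Fm a) (v : Bool → ℕ) :
    L7h71.CC.Sat (L7h71.CC.toS x) (tr φ) v ↔ Sat x φ v := by
  induction φ generalizing v with
  | eq b c => exact Iff.rfl
  | rel i s => exact Iff.rfl
  | neg φ ih => exact not_congr (ih v)
  | and φ ψ ih1 ih2 => exact and_congr (ih1 v) (ih2 v)
  | atLeast k b φ ih =>
    have h : Sat x (.atLeast k b φ) v ↔
        ∃ w : Fin k → ℕ, Function.Injective w ∧ ∀ j, Sat x φ (Function.update v b (w j)) :=
      exists_finset
    rw [h]
    cases b
    · show (∃ w : Fin k → ℕ, Function.Injective w ∧ ∀ j, L7h71.CC.Sat (L7h71.CC.toS x) (tr φ)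
        (Function.update (v ∘ not) true (w j) ∘ not)) ↔ _
      refine exists_congr fun w => and_congr_right fun _ => forall_congr' fun j => ?_
      rw [ih]
      have : Function.update (v ∘ not) true (w j) ∘ not = Function.update v false (w j) := by
        funext b
        cases b <;> simp
      rw [this]
    · refine exists_congr fun w => and_congr_right fun _ => forall_congr' fun j => ?_
      exact ih _

theorem holds_iff (x : Str a) (φ : Fm a) : Holds x φ ↔
    ∀ z, L7h71.CC.Sat (L7h71.CC.toS x) (.neg (.cnt 1 (.neg (tr φ)))) (L7h71.CC.pk z z) := by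
  constructor
  · rintro h z ⟨w, _, h2⟩
    exact h2 0 ((sat_tr x φ _).2 (h _))
  · intro h v
    by_contra h2
    apply h (v false)
    refine ⟨fun _ => v true, fun j l _ => Subsingleton.elim _ _, fun j h3 => h2 ?_⟩
    rw [L7h71.CC.upd_pk] at h3
    rw [L7h71.CC.pk_eta v]
    exact (sat_tr x φ _).1 h3

/-- the equivalence class -/
def cls (x : Str a) : Set (Str a) :=
  {y | ∀ φ : L7h71.CC.Fo a, (∀ z, L7h71.CC.Sat (L7h71.CC.toS x) φ (L7h71.CC.pk z z)) ↔
    ∀ z, L7h71.CC.Sat (L7h71.CC.toS y) φ (L7h71.CC.pk z z)}

theorem cls_sub {x y : Str a} (h : y ∈ cls x) : Equivalent x y := fun φ => by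
  rw [holds_iff, holds_iff]
  exact h _

theorem cls_self (x : Str a) : x ∈ cls x := fun _ => Iff.rfl

theorem cls_closed (x : Str a) : L7h71.CC.Closed (cls x) :=
  fun _ hy _ hz φ => (hy φ).trans (hz φ)

theorem cls_meas (x : Str a) : MeasurableSet (cls x) := by
  have h : cls x = ⋂ φ : L7h71.CC.Fo a,
      {y | (∀ z, L7h71.CC.Sat (L7h71.CC.toS x) φ (L7h71.CC.pk z z)) ↔
        ∀ z, L7h71.CC.Sat (L7h71.CC.toS y) φ (L7h71.CC.pk z z)} := by
    ext y
    simp [cls]
  rw [h]
  refine MeasurableSet.iInter fun φ => measurableSet_setOfPred.2 ?_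
  exact measurable_const.iff (Measurable.forall fun z => L7h71.CC.measurable_sat _ _)

theorem general : ∀ (a : ℕ → ℕ) (V : Str a → Prop), Tame a V → ∀ B : Set (Str a),
    MeasurableSet B → (∀ x y, Iso x y → (x ∈ B ↔ y ∈ B)) →
    (∀ x ∈ B, V x ∨ ∀ y, Equivalent x y → y ∈ B) → CountableOrPerfect B := by
  classical
  intro a V hV B hB hinv hcl
  by_cases hP : L7h71.CC.Perf B
  · exact Or.inr hP
  have hS := L7h71.CC.S2_countable hB hP
  have hsub : ∀ x, (∀ y, Equivalent x y → y ∈ B) → cls x ⊆ B :=
    fun x h y hy => h y (cls_sub hy)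
  have hnP : ∀ x, cls x ⊆ B → ¬ L7h71.CC.Perf (cls x) := by
    rintro x hx ⟨g, h1, h2, h3⟩
    exact hP ⟨g, h1, fun c => hx (h2 c), h3⟩
  -- the classes contained in `B`
  let I : Set (Set (L7h71.CC.Fo a)) := {s | ∃ x, cls x ⊆ B ∧ L7h71.CC.tp (L7h71.CC.toS x) 0 0 = s}
  have hI : I.Countable := by
    refine hS.mono ?_
    rintro s ⟨x, hx, rfl⟩
    exact ⟨x, hx (cls_self x), 0, 0, rfl⟩
  have := hI.to_subtype
  choose X hX1 hX2 using fun s : I => s.2
  choose C hC1 hC2 using fun s : I =>
    L7h71.CC.main (cls_meas (X s)) (cls_closed (X s)) (hnP (X s) (hX1 s))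
  have hcov : ∀ x, cls x ⊆ B → ∃ s : I, x ∈ cls (X s) := by
    intro x hx
    refine ⟨⟨_, x, hx, rfl⟩, ?_⟩
    exact (cls_closed _).tp (cls_self _) (hX2 ⟨_, x, hx, rfl⟩)
  let B' : Set (Str a) := B \ ⋃ s : I, cls (X s)
  have hB' : MeasurableSet B' := hB.diff (MeasurableSet.iUnion fun s => cls_meas _)
  have hinv' : ∀ x y, Iso x y → (x ∈ B' ↔ y ∈ B') := by
    intro x y hxy
    refine and_congr (hinv x y hxy) (not_congr ?_)
    simp only [mem_iUnion]
    refine exists_congr fun s => ⟨fun h => (cls_closed _).iso hxy h, fun h =>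
      (cls_closed _).iso (L7h71.COV.Iso.symm hxy) h⟩
  have hin : ∀ x ∈ B', V x := by
    intro x hx
    rcases hcl x hx.1 with h | h
    · exact h
    · obtain ⟨s, hs⟩ := hcov x (hsub x h)
      exact absurd (mem_iUnion.2 ⟨s, hs⟩) hx.2
  rcases (FiniteFlips.result a V hV).2 B' hB' hinv' hin with ⟨f, hf⟩ | ⟨g, h1, h2, h3⟩
  · left
    let D : Set (Str a) := range f ∪ ⋃ s : I, C s
    have hD : D.Countable := (countable_range f).union (countable_iUnion hC1)
    obtain ⟨F, hF⟩ := hD.exists_eq_range ⟨f 0, Or.inl ⟨0, rfl⟩⟩
    refine ⟨F, fun x hx => ?_⟩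
    have : ∃ y ∈ D, Iso y x := by
      by_cases h : x ∈ ⋃ s : I, cls (X s)
      · obtain ⟨s, hs⟩ := mem_iUnion.1 h
        obtain ⟨y, hy1, hy2⟩ := hC2 s x hs
        exact ⟨y, Or.inr (mem_iUnion.2 ⟨s, hy1⟩), hy2⟩
      · obtain ⟨n, hn⟩ := hf x ⟨hx, h⟩
        exact ⟨f n, Or.inl ⟨n, rfl⟩, hn⟩
    obtain ⟨y, hy1, hy2⟩ := this
    rw [hF] at hy1
    obtain ⟨n, rfl⟩ := hy1
    exact ⟨n, hy2⟩
  · exact absurd ⟨g, h1, fun c => (h2 c).1, h3⟩ hP

theorem meas_holds (φ : Fm a) : MeasurableSet {x : Str a | Holds x φ} := by
  simp only [holds_iff]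
  exact measurableSet_setOfPred.2 (Measurable.forall fun z => L7h71.CC.measurable_sat _ _)

theorem holds_iso {x y : Str a} (h : Iso x y) (φ : Fm a) : Holds x φ ↔ Holds y φ :=
  cls_sub ((cls_closed x).iso h (cls_self x)) φ

/-- First part: for every (finite or infinite, complete or incomplete) theory `T` in two-variable
logic with counting, the models of `T` on `ℕ` have countably many isomorphism types or contain a
perfect family of pairwise non-isomorphic structures. Second part: the same for all
isomorphism-invariant Borel classes `B` such that every member of `B` belongs to `V` (one of the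
classes of `FiniteFlips`) or has all structures that are equivalent to it in two-variable logic with
counting in `B`. -/
theorem result :
    (∀ (a : ℕ → ℕ) (T : Set (Fm a)), CountableOrPerfect {x | ∀ φ ∈ T, Holds x φ}) ∧
    (∀ (a : ℕ → ℕ) (V : Str a → Prop), Tame a V → ∀ B : Set (Str a),
      MeasurableSet B → (∀ x y, Iso x y → (x ∈ B ↔ y ∈ B)) →
      (∀ x ∈ B, V x ∨ ∀ y, Equivalent x y → y ∈ B) → CountableOrPerfect B) := by
  refine ⟨fun a T => ?_, general⟩
  have : Countable (Fm a) := by
    have h : Function.Injective (tr : Fm a → L7h71.CC.Fo a) := by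
      intro φ ψ h
      induction φ generalizing ψ with
      | eq b c => cases ψ with
        | eq b' c' => injection h with h1 h2; rw [h1, h2]
        | rel _ _ => exact absurd h (by simp [tr])
        | neg _ => exact absurd h (by simp [tr])
        | and _ _ => exact absurd h (by simp [tr])
        | atLeast k b _ => cases b <;> exact absurd h (by simp [tr])
      | rel i t => cases ψ with
        | eq _ _ => exact absurd h (by simp [tr])
        | rel _ _ => simp only [tr, L7h71.CC.Fo.rel.injEq] at h; exact (Fm.rel.injEq _ _ _ _).mpr h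
        | neg _ => exact absurd h (by simp [tr])
        | and _ _ => exact absurd h (by simp [tr])
        | atLeast k b _ => cases b <;> exact absurd h (by simp [tr])
      | neg φ ih => cases ψ with
        | eq _ _ => exact absurd h (by simp [tr])
        | rel _ _ => exact absurd h (by simp [tr])
        | neg _ => simp only [tr, L7h71.CC.Fo.neg.injEq] at h; rw [ih h]
        | and _ _ => exact absurd h (by simp [tr])
        | atLeast k b _ => cases b <;> exact absurd h (by simp [tr])
      | and φ ψ' ih1 ih2 => cases ψ with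
        | eq _ _ => exact absurd h (by simp [tr])
        | rel _ _ => exact absurd h (by simp [tr])
        | neg _ => exact absurd h (by simp [tr])
        | and _ _ => simp only [tr, L7h71.CC.Fo.and.injEq] at h; rw [ih1 h.1, ih2 h.2]
        | atLeast k b _ => cases b <;> exact absurd h (by simp [tr])
      | atLeast k b φ ih => cases ψ with
        | eq _ _ => cases b <;> exact absurd h (by simp [tr])
        | rel _ _ => cases b <;> exact absurd h (by simp [tr])
        | neg _ => cases b <;> exact absurd h (by simp [tr])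
        | and _ _ => cases b <;> exact absurd h (by simp [tr])
        | atLeast k' b' _ =>
          cases b <;> cases b'
          · simp only [tr, L7h71.CC.Fo.sub.injEq, L7h71.CC.Fo.cnt.injEq, true_and] at h
            rw [h.1, ih h.2]
          · exact absurd h (by simp [tr])
          · exact absurd h (by simp [tr])
          · simp only [tr, L7h71.CC.Fo.cnt.injEq] at h
            rw [h.1, ih h.2]
    exact h.countable
  refine general a _ (Tame.flip a) _ ?_ ?_ ?_
  · have h : {x : Str a | ∀ φ ∈ T, Holds x φ} = ⋂ φ ∈ T, {x | Holds x φ} := by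
      ext x; simp
    rw [h]
    exact MeasurableSet.biInter (to_countable T) fun φ _ => meas_holds φ
  · intro x y h
    exact forall₂_congr fun φ _ => holds_iso h φ
  · intro x hx
    exact Or.inr fun y hy φ hφ => (hy φ).1 (hx φ hφ)

end Pool.Agent.Results.MP_5df2c5_lc.CountingLogic
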