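import Pool.Agent.Results.MP_5df2c5_lc.FiniteFlips
import Pool.Agent.L7h71.COV.Str

set_option autoImplicit false

/-!
# Vaught's conjecture for classes closed under coverings, and for the guarded two-variable fragment
with counting

A covering `π` of a relational structure `x` by a structure `y` is a surjection with infinite fibres
that preserves the truth of the tuples with one entry, and is a covering of graphs, compatible with
the relations, for the graph of the pairs `{u, v}` of distinct points that are the entries of a true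
tuple. Nothing is required about the tuples with three or more distinct entries.

(1) Vaught's conjecture, in perfect-set form, holds for every isomorphism-invariant Borel class `B`
of countable structures that is closed under coverings. More generally, it is enough that each
member `x` of `B` is a finite flip of a sparse structure (see the file `FiniteFlips`) or has all its
coverings in `B`.

(2) So the conjecture holds for all theories, first-order or infinitary, in the guarded two-variable
fragment of `L_ω₁ω` with counting quantifiers (infinitary version of the logic `GC²`).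
-/

namespace Pool.Agent.Results.MP_5df2c5_lc.Coverings

open Set Function
open Pool.Agent.Results.MP_5df2c5_lc.FiniteFlips

/-- Two distinct points are adjacent if they are the entries of a tuple in a relation. -/
def Adj {a : ℕ → ℕ} (x : Str a) (u v : ℕ) : Prop :=
  u ≠ v ∧ ∃ (i : ℕ) (t : Fin (a i) → ℕ), x i t = true ∧ range t = {u, v}

/-- `y` covers `x` by `π`: all fibres are infinite, constant (and empty) tuples have the same truth
values as their images, adjacent points have adjacent images, for every point `q` adjacent to the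
image of `u` exactly one point in the fibre of `q` is adjacent to `u`, and the tuples with entries
in an adjacent pair have the same truth values as their images. -/
structure Covering {a : ℕ → ℕ} (x y : Str a) (π : ℕ → ℕ) : Prop where
  fib : ∀ q, {u | π u = q}.Infinite
  const : ∀ (i : ℕ) (t : Fin (a i) → ℕ), (∀ j l, t j = t l) → y i t = x i (π ∘ t)
  adj : ∀ u v, Adj y u v → Adj x (π u) (π v)
  lift : ∀ u q, Adj x (π u) q → ∃! v, Adj y u v ∧ π v = q
  pair : ∀ u v, Adj y u v → ∀ (i : ℕ) (t : Fin (a i) → ℕ), range t ⊆ {u, v} →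
    y i t = x i (π ∘ t)

/-- Formulas of the guarded two-variable fragment of `L_ω₁ω` with counting. The two variables are
`false` and `true`. -/
inductive Fm (a : ℕ → ℕ) : Type
  /-- equality -/
  | eq : Bool → Bool → Fm a
  /-- atoms -/
  | rel : (i : ℕ) → (Fin (a i) → Bool) → Fm a
  /-- negation -/
  | neg : Fm a → Fm a
  /-- countable conjunction -/
  | inf : (ℕ → Fm a) → Fm a
  /-- there is a `z` such that the formula holds if both variables have value `z` -/
  | ex : Fm a → Fm a
  /-- there are at least `k` values of the variable `true` such that the `i`-th relation, a guard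
  that contains both variables, and the formula hold -/
  | cnt : ℕ → (i : ℕ) → (s : Fin (a i) → Bool) → Surjective s → Fm a → Fm a
  /-- substitution of variables -/
  | sub : (Bool → Bool) → Fm a → Fm a

/-- Satisfaction. -/
def Sat {a : ℕ → ℕ} (x : Str a) : Fm a → (Bool → ℕ) → Prop
  | .eq b b', v => v b = v b'
  | .rel i s, v => x i (v ∘ s) = true
  | .neg φ, v => ¬ Sat x φ v
  | .inf f, v => ∀ n, Sat x (f n) v
  | .ex φ, _ => ∃ z, Sat x φ fun _ => z
  | .cnt k i s _ φ, v => ∃ F : Finset ℕ, F.card = k ∧ ∀ z ∈ F,
      x i (update v true z ∘ s) = true ∧ Sat x φ (update v true z)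
  | .sub σ φ, v => Sat x φ (v ∘ σ)

/-- The formula holds whenever both variables have the same value. (For sentences this is the truth
of the sentence.) -/
def Holds {a : ℕ → ℕ} (x : Str a) (φ : Fm a) : Prop := ∀ z, Sat x φ fun _ => z

variable {a : ℕ → ℕ}

theorem Adj.symm {x : Str a} {u v : ℕ} (h : Adj x u v) : Adj x v u := by
  obtain ⟨h1, i, t, h2, h3⟩ := h
  exact ⟨h1.symm, i, t, h2, by rw [h3, pair_comm]⟩

theorem adj_upd {x : Str a} {v : Bool → ℕ} {z i : ℕ} {s : Fin (a i) → Bool}
    (hs : Surjective s) (h : x i (update v true z ∘ s) = true) :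
    v false = z ∨ Adj x (v false) z := by
  by_cases h1 : v false = z
  · exact Or.inl h1
  · refine Or.inr ⟨h1, i, _, h, ?_⟩
    rw [hs.range_comp]
    ext w
    simp only [mem_range, Bool.exists_bool, update_self, mem_insert_iff, mem_singleton_iff]
    rw [update_of_ne (by decide)]
    constructor
    · rintro (h | h)
      · exact Or.inl h.symm
      · exact Or.inr h.symm
    · rintro (h | h)
      · exact Or.inl h.symm
      · exact Or.inr h.symm

theorem exists_finset {S T : Set ℕ} {π : ℕ → ℕ} (h : BijOn π S T) (k : ℕ) :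
    (∃ F : Finset ℕ, F.card = k ∧ ∀ z ∈ F, z ∈ S) ↔ ∃ F : Finset ℕ, F.card = k ∧ ∀ z ∈ F, z ∈ T := by
  classical
  constructor
  · rintro ⟨F, h1, h2⟩
    refine ⟨F.image π, ?_, ?_⟩
    · rw [Finset.card_image_of_injOn fun u hu v hv huv => h.injOn (h2 u hu) (h2 v hv) huv, h1]
    · intro z hz
      obtain ⟨w, hw, rfl⟩ := Finset.mem_image.1 hz
      exact h.mapsTo (h2 w hw)
  · rintro ⟨F, h1, h2⟩
    have h3 : ∀ z ∈ F, ∃ w, w ∈ S ∧ π w = z := fun z hz => h.surjOn (h2 z hz)
    choose! f hf using h3
    refine ⟨F.image f, ?_, ?_⟩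
    · rw [Finset.card_image_of_injOn, h1]
      intro u hu v hv huv
      rw [← (hf u hu).2, ← (hf v hv).2, huv]
    · intro z hz
      obtain ⟨w, hw, rfl⟩ := Finset.mem_image.1 hz
      exact (hf w hw).1

theorem Covering.surj {x y : Str a} {π : ℕ → ℕ} (h : Covering x y π) : Surjective π := by
  intro q
  obtain ⟨u, hu⟩ := (h.fib q).nonempty
  exact ⟨u, hu⟩

/-- The formulas are preserved by coverings. -/
theorem Covering.sat {x y : Str a} {π : ℕ → ℕ} (h : Covering x y π) (φ : Fm a) (v : Bool → ℕ)
    (hv : v false = v true ∨ Adj y (v false) (v true)) : Sat y φ v ↔ Sat x φ (π ∘ v) := by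
  induction φ generalizing v with
  | eq b b' =>
    have h1 : v false = v true ↔ π (v false) = π (v true) := by
      rcases hv with h1 | h1
      · simp [h1]
      · exact ⟨fun h2 => absurd h2 h1.1, fun h2 => absurd h2 (h.adj _ _ h1).1⟩
    cases b <;> cases b' <;> simp only [Sat, comp]
    · exact h1
    · rw [eq_comm, h1, eq_comm]
  | rel i s =>
    simp only [Sat]
    rcases hv with h1 | h1
    · rw [h.const i (v ∘ s) fun j l => ?_]
      · rfl
      · simp only [comp]
        cases s j <;> cases s l <;> simp [h1]
    · rw [h.pair _ _ h1 i (v ∘ s) ?_]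
      · rfl
      · rintro _ ⟨j, rfl⟩
        simp only [comp]
        cases s j <;> simp
  | neg φ ih =>
    simp only [Sat]
    rw [ih v hv]
  | inf f ih =>
    simp only [Sat]
    exact forall_congr' fun n => ih n v hv
  | ex φ ih =>
    simp only [Sat]
    constructor
    · rintro ⟨z, hz⟩
      exact ⟨π z, (ih _ (Or.inl rfl)).1 hz⟩
    · rintro ⟨w, hw⟩
      obtain ⟨z, rfl⟩ := h.surj w
      exact ⟨z, (ih _ (Or.inl rfl)).2 hw⟩
  | cnt k i s hs φ ih =>
    simp only [Sat]
    have hu : ∀ z, π ∘ update v true z = update (π ∘ v) true (π z) := by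
      intro z
      funext b
      cases b
      · simp
      · simp
    have hu2 : ∀ z, (update v true z) false = v false ∧ (update v true z) true = z := by
      intro z
      exact ⟨update_of_ne (by decide) _ _, update_self _ _ _⟩
    have hsat : ∀ z, (v false = z ∨ Adj y (v false) z) →
        ((y i (update v true z ∘ s) = true ∧ Sat y φ (update v true z)) ↔
        (x i (update (π ∘ v) true (π z) ∘ s) = true ∧
          Sat x φ (update (π ∘ v) true (π z)))) := by
      intro z hz
      rw [ih _ (by rw [(hu2 z).1, (hu2 z).2]; exact hz), hu, ← hu]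
      have h2 : y i (update v true z ∘ s) = x i (π ∘ (update v true z ∘ s)) := by
        rcases hz with h1 | h1
        · refine h.const _ _ fun j l => ?_
          have h3 : ∀ b, update v true z b = z := by
            intro b
            cases b
            · rw [(hu2 z).1, h1]
            · exact (hu2 z).2
          simp only [comp, h3]
        · refine h.pair _ _ h1 _ _ ?_
          rintro _ ⟨j, rfl⟩
          simp only [comp]
          cases s j
          · rw [(hu2 z).1]; simp
          · rw [(hu2 z).2]; simp
      rw [h2]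
      rfl
    refine exists_finset (π := π)
      (S := {z | y i (update v true z ∘ s) = true ∧ Sat y φ (update v true z)})
      (T := {w | x i (update (π ∘ v) true w ∘ s) = true ∧ Sat x φ (update (π ∘ v) true w)})
      ⟨fun z hz => ?_, fun z hz z' hz' hzz => ?_, fun w hw => ?_⟩ k
    · exact (hsat z (adj_upd hs hz.1)).1 hz
    · have h1 := adj_upd hs hz.1
      have h2 := adj_upd hs hz'.1
      rcases h1 with h1 | h1
      · rcases h2 with h2 | h2
        · rw [← h1, ← h2]
        · exact absurd (by rw [h1, hzz]) (h.adj _ _ h2).1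
      · rcases h2 with h2 | h2
        · exact absurd (by rw [h2, ← hzz]) (h.adj _ _ h1).1
        · obtain ⟨w, _, hw⟩ := h.lift (v false) (π z) (h.adj _ _ h1)
          rw [hw z ⟨h1, rfl⟩, hw z' ⟨h2, hzz.symm⟩]
    · have h1 := adj_upd hs hw.1
      rcases h1 with h1 | h1
      · refine ⟨v false, (hsat _ (Or.inl rfl)).2 ?_, h1⟩
        have h2 : π (v false) = w := h1
        rw [h2]
        exact hw
      · obtain ⟨z, ⟨hz1, hz2⟩, _⟩ := h.lift (v false) w h1
        refine ⟨z, (hsat _ (Or.inr hz1)).2 ?_, hz2⟩
        rw [hz2]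
        exact hw
  | sub σ φ ih =>
    simp only [Sat]
    rw [ih]
    · rfl
    · simp only [comp]
      cases σ false <;> cases σ true
      · exact Or.inl rfl
      · exact hv
      · rcases hv with h1 | h1
        · exact Or.inl h1.symm
        · exact Or.inr h1.symm
      · exact Or.inl rfl

theorem Iso.sat {x y : Str a} {σ : Equiv.Perm ℕ}
    (h : ∀ (i : ℕ) (v : Fin (a i) → ℕ), y i (⇑σ ∘ v) = x i v) (φ : Fm a) (v : Bool → ℕ) :
    Sat y φ (σ ∘ v) ↔ Sat x φ v := by
  induction φ generalizing v with
  | eq b b' => simp [Sat]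
  | rel i s =>
    simp only [Sat]
    rw [comp_assoc, h]
  | neg φ ih =>
    simp only [Sat]
    rw [ih v]
  | inf f ih =>
    simp only [Sat]
    exact forall_congr' fun n => ih n v
  | ex φ ih =>
    simp only [Sat]
    constructor
    · rintro ⟨z, hz⟩
      refine ⟨σ.symm z, (ih _).1 ?_⟩
      have : σ ∘ (fun _ : Bool => σ.symm z) = fun _ => z := by funext b; simp
      rw [this]
      exact hz
    · rintro ⟨z, hz⟩
      exact ⟨σ z, (ih _).2 hz⟩
  | cnt k i s hs φ ih =>
    simp only [Sat]
    have hu : ∀ z, update (σ ∘ v) true (σ z) = σ ∘ update v true z := by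
      intro z
      funext b
      cases b
      · simp
      · simp
    refine (exists_finset
      (S := {z | x i (update v true z ∘ s) = true ∧ Sat x φ (update v true z)})
      (T := {w | y i (update (σ ∘ v) true w ∘ s) = true ∧ Sat y φ (update (σ ∘ v) true w)})
      (π := σ) ⟨fun z hz => ?_, σ.injective.injOn, fun w hw => ?_⟩ k).symm
    · show _ ∧ _
      rw [hu, ih, comp_assoc, h]
      exact hz
    · refine ⟨σ.symm w, ?_, by simp⟩
      have h1 : w = σ (σ.symm w) := by simp
      have h2 : y i (update (σ ∘ v) true w ∘ s) = true ∧ Sat y φ (update (σ ∘ v) true w) := hw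
      rw [h1, hu, ih, comp_assoc, h] at h2
      exact h2
  | sub τ φ ih =>
    simp only [Sat]
    rw [← ih]
    rfl

theorem measurable_sat (φ : Fm a) (v : Bool → ℕ) : Measurable fun x : Str a => Sat x φ v := by
  have hrel : ∀ (i : ℕ) (t : Fin (a i) → ℕ), Measurable fun x : Str a => x i t = true := by
    intro i t
    apply measurableSet_setOfPred.1
    have h1 : Measurable fun x : Str a => x i t :=
      (measurable_pi_apply t).comp (measurable_pi_apply i)
    exact h1 (measurableSet_singleton true)
  induction φ generalizing v with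
  | eq b b' => exact measurable_const
  | rel i s => exact hrel i _
  | neg φ ih => exact (ih v).not
  | inf f ih => exact Measurable.forall fun n => ih n v
  | ex φ ih => exact Measurable.exists fun z => ih _
  | cnt k i s hs φ ih =>
    refine Measurable.exists fun F => measurable_const.and (Measurable.forall fun z =>
      Measurable.imp measurable_const ((hrel i _).and (ih _)))
  | sub σ φ ih => exact ih _

/-- Structures without cycles are sparse. -/
theorem sparse_of_acyclic {x : Str a} (ha : ∀ i, a i ≤ 2)
    (h : ∀ k, ¬ Pool.Agent.L7h71.COV.Cyc (Pool.Agent.L7h71.COV.Adj x) k) : FlipSparse x := by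
  let S : SimpleGraph ℕ := ⟨Adj x, ⟨fun u v h => Adj.symm h⟩, ⟨fun u h => h.1 rfl⟩⟩
  have hac : S.IsAcyclic := by
    intro u c hc
    refine h c.length ⟨hc.three_le_length, fun i => c.getVert (i % c.length), ?_, ?_, ?_⟩
    · intro i
      have h3 := hc.three_le_length
      have h4 : i % c.length < c.length := Nat.mod_lt _ (by omega)
      have h1 : S.Adj (c.getVert (i % c.length)) (c.getVert (i % c.length + 1)) :=
        c.adj_getVert_succ h4
      have h2 : c.getVert ((i + 1) % c.length) = c.getVert (i % c.length + 1) := by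
        rw [Nat.add_mod, Nat.mod_eq_of_lt (show 1 < c.length by omega)]
        rcases Nat.lt_or_ge (i % c.length + 1) c.length with h5 | h5
        · rw [Nat.mod_eq_of_lt h5]
        · have h6 : i % c.length + 1 = c.length := by omega
          rw [h6, Nat.mod_self, c.getVert_zero, c.getVert_length]
      show Adj x (c.getVert (i % c.length)) (c.getVert ((i + 1) % c.length))
      rw [h2]
      exact h1
    · intro i
      show c.getVert _ = c.getVert _
      rw [Nat.add_mod_right]
    · intro i j hi hj hij
      simp only [Nat.mod_eq_of_lt hi, Nat.mod_eq_of_lt hj] at hij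
      exact hc.getVert_injOn' (by simp; omega) (by simp; omega) hij
  refine ⟨S, 1, fun _ => 0, fun _ _ _ => false, ?_, ?_, ?_⟩
  · rintro ⟨v, hv, P, hP1, hP2, hP3⟩
    have key : ((P 0 1).append (P 1 2)).IsPath := by
      rw [SimpleGraph.Walk.isPath_def, SimpleGraph.Walk.support_append]
      rw [List.nodup_append]
      have n1 := (SimpleGraph.Walk.isPath_def _).1 (hP1 0 1 (by decide))
      have n2 := (SimpleGraph.Walk.isPath_def _).1 (hP1 1 2 (by decide))
      refine ⟨n1, n2.tail, ?_⟩
      intro w hw w' hw' hww
      subst hww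
      obtain ⟨k, rfl⟩ := hP3 0 1 1 2 (by decide) (by decide) (by decide) w hw
        (List.mem_of_mem_tail hw')
      have h1 := hP2 0 1 k (by decide) hw
      have h2 := hP2 1 2 k (by decide) (List.mem_of_mem_tail hw')
      have h3 : k = 1 := by omega
      subst h3
      rw [← SimpleGraph.Walk.cons_tail_support] at n2
      exact (List.nodup_cons.1 n2).1 hw'
    have h1 := (SimpleGraph.isAcyclic_iff_subsingleton_path.1 hac (v 0) (v 2)).elim ⟨_, key⟩
      ⟨P 0 2, hP1 0 2 (by decide)⟩
    have h2 : (P 0 1).append (P 1 2) = P 0 2 := congrArg Subtype.val h1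
    have h3 : v 1 ∈ (P 0 2).support := by
      rw [← h2, SimpleGraph.Walk.mem_support_append_iff]
      exact Or.inl (SimpleGraph.Walk.end_mem_support _)
    have := hP2 0 2 1 (by decide) h3
    omega
  · intro i hi u v huv hS
    by_contra h1
    rw [Bool.not_eq_false] at h1
    apply hS
    refine ⟨huv, i, pair u v, h1, ?_⟩
    apply Subset.antisymm
    · rintro _ ⟨j, rfl⟩
      unfold pair
      split_ifs <;> simp
    · rintro w (rfl | hw)
      · exact ⟨⟨0, by omega⟩, by simp [pair]⟩
      · rw [mem_singleton_iff] at hw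
        subst hw
        exact ⟨⟨1, by omega⟩, by simp [pair]⟩
  · intro i hi t _ j l
    left
    have h1 := ha i
    have h2 := j.isLt
    have h3 := l.isLt
    congr 1
    apply Fin.ext
    omega

theorem conv {x y : Str a} {π : ℕ → ℕ} (h : Pool.Agent.L7h71.COV.Covering x y π) :
    Covering x y π := ⟨h.fib, h.const, h.adj, h.lift, h.pair⟩

/-- Vaught's conjecture, in perfect-set form, for the models in `B` of a countable set `Ψ` of
sentences of the guarded two-variable fragment with counting, where `B` is an isomorphism-invariant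
Borel class such that each of its members is a finite flip of a sparse structure or has all its
coverings in `B`. -/
theorem result : ∀ (a : ℕ → ℕ) (B : Set (Str a)), MeasurableSet B →
    (∀ x y, Iso x y → (x ∈ B ↔ y ∈ B)) →
    (∀ x ∈ B, FlipSparse x ∨ ∀ (y : Str a) (π : ℕ → ℕ), Covering x y π → y ∈ B) →
    ∀ Ψ : Set (Fm a), Ψ.Countable →
      (∃ f : ℕ → Str a, ∀ x ∈ B, (∀ ψ ∈ Ψ, Holds x ψ) → ∃ n, Iso (f n) x) ∨
      (∃ g : (ℕ → Bool) → Str a, Continuous g ∧ (∀ c, g c ∈ B ∧ ∀ ψ ∈ Ψ, Holds (g c) ψ) ∧
        ∀ c d, Iso (g c) (g d) → c = d) := by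
  intro a B hB hinv hcov Ψ hΨ
  let B' : Set (Str a) := {x | x ∈ B ∧ ∀ ψ ∈ Ψ, Holds x ψ}
  have hB' : MeasurableSet B' := by
    have h1 : B' = B ∩ ⋂ ψ ∈ Ψ, {x | Holds x ψ} := by
      ext x; simp [B']
    rw [h1]
    refine hB.inter (MeasurableSet.biInter hΨ fun ψ _ => ?_)
    apply measurableSet_setOfPred.2
    exact Measurable.forall fun z => measurable_sat _ _
  have hinv' : ∀ x y, Iso x y → (x ∈ B' ↔ y ∈ B') := by
    intro x y hxy
    refine and_congr (hinv x y hxy) (forall₂_congr fun ψ _ => ?_)
    obtain ⟨σ, hσ⟩ := hxy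
    constructor
    · intro h z
      have := (Iso.sat hσ ψ fun _ => σ.symm z).2 (h _)
      have h2 : σ ∘ (fun _ : Bool => σ.symm z) = fun _ => z := by funext b; simp
      rw [h2] at this
      exact this
    · intro h z
      exact (Iso.sat hσ ψ fun _ => z).1 (h (σ z))
  have hcl : ∀ x ∈ B', (∀ (y : Str a) (π : ℕ → ℕ), Covering x y π → y ∈ B) →
      ∀ (y : Str a) (π : ℕ → ℕ), Covering x y π → y ∈ B' := by
    intro x hx h y π hπ
    refine ⟨h y π hπ, fun ψ hψ z => ?_⟩
    exact (hπ.sat ψ _ (Or.inl rfl)).2 (hx.2 ψ hψ (π z))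
  by_cases hcase : ∃ x ∈ B', (∀ (y : Str a) (π : ℕ → ℕ), Covering x y π → y ∈ B') ∧
      ¬ FlipSparse x
  · right
    obtain ⟨x, hx, h1, h2⟩ := hcase
    have key : ∃ g : (ℕ → Bool) → Str a, Continuous g ∧
        (∀ c, ∃ π, Pool.Agent.L7h71.COV.Covering x (g c) π) ∧
        ∀ c d, Pool.Agent.L7h71.COV.Iso (g c) (g d) → c = d := by
      by_cases ha : ∀ i, a i ≤ 2
      · by_cases h3 : ∀ k, ¬ Pool.Agent.L7h71.COV.Cyc (Pool.Agent.L7h71.COV.Adj x) k
        · exact absurd (sparse_of_acyclic ha h3) h2
        · push Not at h3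
          obtain ⟨k, hk⟩ := h3
          exact Pool.Agent.L7h71.COV.perf_cyc x hk
      · push Not at ha
        obtain ⟨i, hi⟩ := ha
        exact Pool.Agent.L7h71.COV.perf_three x (i := i) (by omega)
    obtain ⟨g, hg1, hg2, hg3⟩ := key
    refine ⟨g, hg1, fun c => ?_, hg3⟩
    obtain ⟨π, hπ⟩ := hg2 c
    exact h1 _ _ (conv hπ)
  · push Not at hcase
    have hin : ∀ x ∈ B', FlipSparse x := by
      intro x hx
      rcases hcov x hx.1 with h1 | h1
      · exact h1
      · exact hcase x hx (hcl x hx h1)
    rcases (FiniteFlips.result a _ (Tame.flip a)).2 B' hB' hinv' hin with ⟨f, hf⟩ |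
      ⟨g, h1, h2, h3⟩
    · exact Or.inl ⟨f, fun x hx hψ => hf x ⟨hx, hψ⟩⟩
    · exact Or.inr ⟨g, h1, h2, h3⟩

end Pool.Agent.Results.MP_5df2c5_lc.Coverings
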