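import Pool.Agent.L7h71.FP.Fin

set_option autoImplicit false

/-!
# Vaught's conjecture for unions of theories in disjoint languages

(1) Let `T₀`, `T₁` be theories in disjoint countable languages (with relation and function symbols),
each of which has a model on `ℕ` whose automorphism group is not open, that is, it does not contain
all the permutations which fix some finite set pointwise. Then Vaught's conjecture, perfect-set
form, holds for `T₀ ∪ T₁`. No other assumption on `T₀` and `T₁` is made. (If all models of `T₁` have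
open automorphism groups then they are definable from finitely many constants and equality alone,
and `T₀ ∪ T₁` is essentially the theory `T₀`, for which the conjecture would have to be proved.) It is
also enough that one of the theories, say `T₁`, has a model of this kind and that every model of
`T₁` has only countably many subsets up to automorphisms, for instance if `T₁` is the theory without
axioms of one unary predicate: then `T₀` is arbitrary.

(2) The theories which satisfy Vaught's conjecture are closed under unions in disjoint languages.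

(3) The same as (1) for sentences of infinitary logic, or isomorphism-invariant Borel classes.

(4) Let `G` and `K` be closed groups of permutations of `ℕ`. Then there are countably or perfectly
many double cosets `G σ K` in the group of all permutations. So the topological Vaught conjecture
holds for all actions of closed subgroups of the symmetric group on its homogeneous spaces.
In other words: the superpositions of two countable structures have countably or perfectly many
isomorphism types.

Idea of the proof. Say that `G` has few subsets if there is no continuous family of subsets of `ℕ` in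
different orbits of `G`. If `K` has, over a finite set, an infinite coinfinite invariant set, and `G`
has many subsets, then there are perfectly many double cosets. If `K` has no such set and is not
open then over a finite set it preserves an equivalence relation with finite classes of equal size
`m ≥ 2`, and there are again perfectly many double cosets: subsets are coded by the classes
which cross an invariant set of `G`, and if `G` has no infinite coinfinite invariant set either then
pairs of equivalence relations with finite connected components of prescribed sizes are used. So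
it remains to consider the case that both groups are open or have few subsets. In the latter case
both structures are, over finite sets, given by locally finite families of cells, superpositions of
two of them are structures on locally finite graphs, and a theorem of the starting point
(FiniteFlips) applies.

Parts of the formal proof are due to helper23, helper26, helper50 and helper65, building on the parts
of helper7, helper26 and helper73 on groups with few subsets.
-/

namespace Pool.Agent.Results.MP_5df2c5_lc.DisjointUnions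

open FirstOrder FirstOrder.Language

/-- Relational structures on `ℕ` with relations of arities `a 0, a 1, ...`. -/
abbrev Str (a : ℕ → ℕ) : Type := (i : ℕ) → (Fin (a i) → ℕ) → Bool

/-- Isomorphism of structures. -/
def Iso {a : ℕ → ℕ} (x y : Str a) : Prop :=
  ∃ σ : Equiv.Perm ℕ, ∀ (i : ℕ) (v : Fin (a i) → ℕ), y i (⇑σ ∘ v) = x i v

/-- The class has countably many isomorphism types, or it contains a continuous family, indexed by
the Cantor space, of pairwise non-isomorphic structures. -/
def CountableOrPerfect {a : ℕ → ℕ} (B : Set (Str a)) : Prop :=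
  (∃ f : ℕ → Str a, ∀ x ∈ B, ∃ n, Iso (f n) x) ∨
  (∃ g : (ℕ → Bool) → Str a, Continuous g ∧ (∀ c, g c ∈ B) ∧ ∀ c d, Iso (g c) (g d) → c = d)

/-- The automorphism group of the reduct of `x` to the relations with number in `I`. -/
def AutI {a : ℕ → ℕ} (I : Set ℕ) (x : Str a) : Subgroup (Equiv.Perm ℕ) where
  carrier := {σ | ∀ i ∈ I, ∀ v : Fin (a i) → ℕ, x i (⇑σ ∘ v) = x i v}
  mul_mem' := fun {g h} hg hh i hi v => (hg i hi (⇑h ∘ v)).trans (hh i hi v)
  one_mem' := fun _ _ _ => rfl
  inv_mem' := by
    intro g hg i hi v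
    rw [← hg i hi]
    congr 1
    funext j
    simp

/-- The automorphism group of a structure on `ℕ`. -/
def Aut {L : FirstOrder.Language.{0, 0}} (S : L.Structure ℕ) : Subgroup (Equiv.Perm ℕ) where
  carrier := {σ |
    (∀ (n : ℕ) (F : L.Functions n) (v : Fin n → ℕ),
      @Structure.funMap L ℕ S n F (⇑σ ∘ v) = σ (@Structure.funMap L ℕ S n F v)) ∧
    (∀ (n : ℕ) (R : L.Relations n) (v : Fin n → ℕ),
      (@Structure.RelMap L ℕ S n R (⇑σ ∘ v) ↔ @Structure.RelMap L ℕ S n R v))}
  mul_mem' := fun {g h} hg hh =>
    ⟨fun n F v => (hg.1 n F (⇑h ∘ v)).trans (congrArg g (hh.1 n F v)),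
      fun n R v => (hg.2 n R (⇑h ∘ v)).trans (hh.2 n R v)⟩
  one_mem' := ⟨fun _ _ _ => rfl, fun _ _ _ => Iff.rfl⟩
  inv_mem' := by
    rintro g ⟨hg1, hg2⟩
    have hv : ∀ {n : ℕ} (v : Fin n → ℕ), ⇑g ∘ (⇑g⁻¹ ∘ v) = v := by
      intro n v
      funext j
      simp
    refine ⟨fun n F v => ?_, fun n R v => ?_⟩
    · have := hg1 n F (⇑g⁻¹ ∘ v)
      rw [hv] at this
      rw [this]
      simp
    · have := hg2 n R (⇑g⁻¹ ∘ v)
      rw [hv] at this
      exact this.symm

/-- The group contains all the permutations which fix a certain finite set pointwise. -/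
def IsOpenGroup (G : Subgroup (Equiv.Perm ℕ)) : Prop :=
  ∃ F : Finset ℕ, ∀ σ : Equiv.Perm ℕ, (∀ n ∈ F, σ n = n) → σ ∈ G

/-- The group has countably many orbits on the set of all subsets of `ℕ`. -/
def FewOrbits (G : Subgroup (Equiv.Perm ℕ)) : Prop :=
  ∃ f : ℕ → ℕ → Bool, ∀ A : ℕ → Bool, ∃ n, ∃ g ∈ G, ∀ m, A (g m) = f n m

/-- The group is closed in the group of all permutations (pointwise convergence). -/
def IsClosedGroup (G : Subgroup (Equiv.Perm ℕ)) : Prop :=
  ∀ g : Equiv.Perm ℕ, (∀ s : Finset ℕ, ∃ h ∈ G, ∀ i ∈ s, h i = g i) → g ∈ G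

/-- The theory has a model on `ℕ` whose automorphism group is not open. -/
def HasNonopenModel {L : FirstOrder.Language.{0, 0}} (T : L.Theory) : Prop :=
  ∃ S : L.Structure ℕ, @Theory.Model L ℕ S T ∧ ¬ IsOpenGroup (Aut S)

/-- The models of the theory on `ℕ` have countably many subsets up to automorphisms. -/
def FewSubsets {L : FirstOrder.Language.{0, 0}} (T : L.Theory) : Prop :=
  ∀ S : L.Structure ℕ, @Theory.Model L ℕ S T → FewOrbits (Aut S)

/-- The union of two theories in disjoint languages. -/
def union {L₀ L₁ : FirstOrder.Language.{0, 0}} (T₀ : L₀.Theory) (T₁ : L₁.Theory) :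
    (L₀.sum L₁).Theory :=
  (LHom.sumInl : L₀ →ᴸ L₀.sum L₁).onTheory T₀ ∪ (LHom.sumInr : L₁ →ᴸ L₀.sum L₁).onTheory T₁

/-- Vaught's conjecture, perfect-set form, for the theory `T` (exactly as in the frozen statement):
its models on `ℕ` have countably many isomorphism types, or there is a continuous family of models,
indexed by the Cantor space, which are pairwise non-isomorphic. -/
def Vaught {L : FirstOrder.Language.{0, 0}} (T : L.Theory) : Prop :=
  (∃ g : ℕ → L.Structure ℕ, ∀ S : L.Structure ℕ, @Theory.Model L ℕ S T →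
    ∃ n : ℕ, Nonempty (@FirstOrder.Language.Equiv L ℕ ℕ S (g n))) ∨
  (∃ f : (ℕ → Bool) → L.Structure ℕ, (∀ x : ℕ → Bool, @Theory.Model L ℕ (f x) T) ∧
    (∀ x y : ℕ → Bool, Nonempty (@FirstOrder.Language.Equiv L ℕ ℕ (f x) (f y)) → x = y) ∧
    (∀ (n : ℕ) (R : L.Relations n) (a : Fin n → ℕ),
      IsClopen {x : ℕ → Bool | @Structure.RelMap L ℕ (f x) n R a}) ∧
    (∀ (n : ℕ) (F : L.Functions n) (a : Fin n → ℕ) (b : ℕ),
      IsOpen {x : ℕ → Bool | @Structure.funMap L ℕ (f x) n F a = b}))

theorem opn_iff {G : Subgroup (Equiv.Perm ℕ)} : IsOpenGroup G ↔ L7h71.FP.Opn G := by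
  constructor
  · rintro ⟨F, hF⟩
    exact ⟨↑F, F.finite_toSet, fun σ hσ => hF σ fun n hn => hσ n hn⟩
  · rintro ⟨F, hF, h⟩
    exact ⟨hF.toFinset, fun σ hσ => h σ fun n hn => hσ n (hF.mem_toFinset.2 hn)⟩

theorem nom {L : FirstOrder.Language.{0, 0}} {T : L.Theory} (h : HasNonopenModel T) :
    L7h71.FPE.NOM T := by
  obtain ⟨S, hS, ho⟩ := h
  refine ⟨S, hS, fun F => ?_⟩
  by_contra hc
  push Not at hc
  exact ho ⟨F, fun σ hσ => ⟨(hc σ hσ).fn, (hc σ hσ).rel⟩⟩

theorem fm {L : FirstOrder.Language.{0, 0}} {T : L.Theory} (h : FewSubsets T) :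
    L7h71.FPE.FM T := by
  intro S hS G hG
  obtain ⟨f, hf⟩ := h S hS
  refine L7h71.FP.few_of_cnt ⟨f, fun A => ?_⟩
  obtain ⟨n, g, hg, hA⟩ := hf A
  exact ⟨n, g, (hG g).2 ⟨hg.1, hg.2⟩, hA⟩

/-- (1) Vaught's conjecture holds for the union of two theories in disjoint countable languages each
of which has a model with a non-open automorphism group; more generally, each of these two
conditions may be replaced by the condition that the models of the other theory have few subsets.
(2) If two theories satisfy Vaught's conjecture then so does their union in disjoint languages.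
(3) The analogue of (1) for isomorphism-invariant Borel classes `B₀`, `B₁` of structures such that
`B₀` depends only on the relations with number in `I` and `B₁` only on the other relations.
(4) For closed groups `G`, `K` of permutations of `ℕ` there are countably many double cosets `G σ K`
or there is a continuous family of permutations, indexed by the Cantor space, in pairwise
different double cosets. -/
theorem result :
    (∀ L₀ L₁ : FirstOrder.Language.{0, 0}, Countable L₀.Symbols → Countable L₁.Symbols →
      ∀ (T₀ : L₀.Theory) (T₁ : L₁.Theory), (HasNonopenModel T₁ ∨ FewSubsets T₀) →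
        (HasNonopenModel T₀ ∨ FewSubsets T₁) → Vaught (union T₀ T₁)) ∧
    (∀ L₀ L₁ : FirstOrder.Language.{0, 0}, Countable L₀.Symbols → Countable L₁.Symbols →
      ∀ (T₀ : L₀.Theory) (T₁ : L₁.Theory), Vaught T₀ → Vaught T₁ → Vaught (union T₀ T₁)) ∧
    (∀ (a : ℕ → ℕ) (I : Set ℕ) (B₀ B₁ : Set (Str a)), MeasurableSet B₀ → MeasurableSet B₁ →
      (∀ x y, Iso x y → (x ∈ B₀ ↔ y ∈ B₀)) → (∀ x y, Iso x y → (x ∈ B₁ ↔ y ∈ B₁)) →
      (∀ x y : Str a, (∀ i ∈ I, x i = y i) → (x ∈ B₀ ↔ y ∈ B₀)) →
      (∀ x y : Str a, (∀ i ∉ I, x i = y i) → (x ∈ B₁ ↔ y ∈ B₁)) →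
      ((∃ x ∈ B₁, ¬ IsOpenGroup (AutI Iᶜ x)) ∨ ∀ x ∈ B₀, FewOrbits (AutI I x)) →
      ((∃ x ∈ B₀, ¬ IsOpenGroup (AutI I x)) ∨ ∀ x ∈ B₁, FewOrbits (AutI Iᶜ x)) →
      CountableOrPerfect (B₀ ∩ B₁)) ∧
    (∀ G K : Subgroup (Equiv.Perm ℕ), IsClosedGroup G → IsClosedGroup K →
      (∃ f : ℕ → Equiv.Perm ℕ, ∀ σ, ∃ n, ∃ g ∈ G, ∃ k ∈ K, σ = g * f n * k) ∨
      (∃ σ : (ℕ → Bool) → Equiv.Perm ℕ, (Continuous fun c => (⇑(σ c) : ℕ → ℕ)) ∧
        (Continuous fun c => (⇑(σ c)⁻¹ : ℕ → ℕ)) ∧
        ∀ c d, (∃ g ∈ G, ∃ k ∈ K, σ d = g * σ c * k) → c = d)) := by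
  refine ⟨fun L₀ L₁ h0 h1 T₀ T₁ n1 n0 => ?_, fun L₀ L₁ h0 h1 T₀ T₁ v0 v1 => ?_,
    fun a I B₀ B₁ m0 m1 i0 i1 d0 d1 n1 n0 => ?_, fun G K hG hK => ?_⟩
  · exact L7h71.FPE.fo_two L7h71.FP.cls' h0 h1 T₀ T₁ (n1.symm.imp fm nom) (n0.symm.imp fm nom)
  · exact L7h71.FPE.fo_cl L7h71.FP.cls' h0 h1 T₀ T₁ v0 v1
  · refine L7h71.FP.inter I B₀ B₁ m0 m1 i0 i1 d0 d1 ?_ ?_
    · refine n1.symm.imp (fun h x hx => L7h71.FP.few_of_cnt (h x hx)) ?_
      rintro ⟨x, hx, ho⟩
      exact ⟨x, hx, fun h => ho (opn_iff.2 h)⟩
    · refine n0.symm.imp (fun h x hx => L7h71.FP.few_of_cnt (h x hx)) ?_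
      rintro ⟨x, hx, ho⟩
      exact ⟨x, hx, fun h => ho (opn_iff.2 h)⟩
  · rcases L7h71.FP.dc G K hG hK with h | ⟨σ, hσ, hc⟩
    · exact Or.inl h
    · exact Or.inr ⟨σ, hσ.1, hσ.2, hc⟩

end Pool.Agent.Results.MP_5df2c5_lc.DisjointUnions
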