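import Pool.Agent.L7h71.UA.Res2
import Pool.Agent.L7h71.GD.All
import Pool.Agent.L7h71.GB.Tp2
import Pool.Agent.L7h42.GB.Tba
import Pool.Agent.L7h75.GB.Tin
import Pool.Agent.L7h76.GB.Tth

set_option autoImplicit false

/-!
# Vaught's conjecture at the level `Σ₂`, and for `Π₂` theories with tame finite submodels

Let `K i` be Polish spaces. We consider structures on `ℕ` with countably many functions, of arbitrary arities,
the `i`-th one with values in `K i` (for `K i = Bool` these are the structures with countably many relations). The
topological Vaught conjecture for a class `B` of such structures says: `B` has countably many isomorphism types or a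
continuous family, indexed by the Cantor space, of pairwise non-isomorphic members. It holds for the following
classes.

(1) The classes of models of `Σ₂` sentences `⋁_i ∃ ū ⋀_j ∀ v̄ φ_ij` of `L_{ω₁ω}`, where the matrix `φ_ij` is
quantifier-free but may be infinitary, and even an arbitrary analytic set of quantifier-free types.

(2) All isomorphism-invariant `F_σ` classes.

(3) More generally, let `ψ` be a `Π₂` sentence `⋀_i ∀ x̄ ⋁_j ∃ ȳ ψ_ij` of `L_{ω₁ω}`, the matrices `ψ_ij` being any
Borel sets of quantifier-free types. The finite submodels of `ψ` in `M` are tame if they are closed under unions and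
nonempty intersections and each point of `M` lies in a maximal principal one (principal: the smallest finite
submodel containing some point). By `tame_of_card_le` it suffices, besides the closure under unions and
intersections, that each point lies in a submodel with at most `n` points. Let `B` be an isomorphism-invariant
analytic (for instance Borel) class such that in each `M ∈ B` the finite submodels of `ψ` are tame and there is a
finite set `F` such that `B` contains all models `N` of `ψ` which are younger than `M` over `F`: each finite substructure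
of `N` containing `F` embeds in `M` over `F`. Then the topological Vaught conjecture holds for `B`. This applies to the
conjunctions of `ψ` and `Σ₂` sentences, if the finite submodels of `ψ` are tame in their models. If `ψ` is trivial then
all finite sets are submodels and are tame, so there is no condition.

(4) Vaught's conjecture, perfect-set form, as in the frozen statement, holds for all first-order theories which
consist of universal sentences and finitely many `∃∀` sentences, in countable languages without function symbols of
positive arity (relations of all arities, infinitely many constants are allowed), and in arbitrary countable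
languages if in each model on `ℕ` which is not finitely generated unions of two substructures are substructures
and each point lies in a maximal 1-generated substructure which has finitely many generators. (For instance for
unary functions from one sort to another sort, that is for sets of infinite sequences.)

(5) It also holds for all first-order theories `T₁ ∪ T₂` in arbitrary countable languages, `T₁` a set of `∀∃` sentences
and `T₂` a finite set of `∃∀` sentences, such that in each model the finite submodels (models of `T₁`) are tame.

(6) Let the group of all permutations of `ℕ` be mapped onto a subgroup of countable index of a group `G`, and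
let `G` act on a zero-dimensional second countable space `X` (Hausdorff and totally disconnected is enough), by
continuous maps, and continuously when restricted to the permutations of `ℕ`. Then each invariant `σ`-compact set
has countably many orbits or contains a Cantor set of points in different orbits.

The next level of the hierarchy, `Π₂` sentences without conditions or `G_δ` classes, is already the general case of the
conjecture, since each theory becomes a `∀∃` theory by naming formulas.

For universal theories in finite relational languages this follows from a theorem of Macpherson, Pouzet and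
Woodrow (Countable structures of given age, 1992; see also Braunfeld and Laskowski, Counting siblings in
universal theories, 2022, for a stronger theorem on finite languages).

Plan of the proof. If `ψ` is trivial: for one function of `r` variables with values in a finite set, types are
ultrafilters on tuples of points, and structures are extended by iterated limits. If limits along two types do not
commute, or if diagonal limits differ from iterated limits, then there are perfectly many younger
structures. Otherwise there are finitely many types of each arity, the connected types have bounded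
size, almost all realisations of suitable types are generic, generic realisations of a type are exchanged
by automorphisms, and the structure is cellular. A function with infinite range gives perfectly many
younger structures by a Ramsey argument. So, by lifting, we may assume that all reducts of the members of
`B` to finitely many functions are cellular. Then the members of `B` have only countably many
types of sequences of finite reducts, up to perfect sets. For one such sequence the structures are described by
coherent sequences of isomorphisms of the finite reducts; their points form finite or infinite components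
attached to a countable core, the number of components of a given type is an invariant, and either only
finitely many of these numbers can vary, or there are perfectly many members. The case of nontrivial `ψ` follows
by coding: the points of the code of `M` are the maximal principal finite submodels, its functions give the
isomorphism types (real numbers) of the unions of finitely many of them. For the second part of (4) the points of
the code are the generators of the maximal 1-generated substructures, its functions give the quantifier-free types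
of the tuples of generators, and (3) is applied to the class of all codes; ultrapowers show that it satisfies the
condition.

The parts of the formal proof are due to helpers 6, 18, 23, 24, 29, 42, 44, 45, 46, 47, 50, 51, 53, 60, 66, 68, 69,
71, 73, 75, 76, 77, 78, 87, 89, 93, 95, 96, 97. The argument for arbitrary arities is due to helper66.
-/

namespace Pool.Agent.Results.MP_5df2c5_lc.SigmaTwoSentences

open FirstOrder FirstOrder.Language MeasureTheory

variable {a : ℕ → ℕ} {K : ℕ → Type}

/-- Structures on `ℕ` with functions `M i` of `a i` variables with values in `K i`, `i ∈ ℕ`. -/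
abbrev Str (a : ℕ → ℕ) (K : ℕ → Type) : Type := ∀ i, (Fin (a i) → ℕ) → K i

/-- Isomorphism. -/
def Iso (M N : Str a K) : Prop :=
  ∃ σ : Equiv.Perm ℕ, ∀ i (x : Fin (a i) → ℕ), N i (⇑σ ∘ x) = M i x

/-- The class has countably many isomorphism types, or it contains a continuous family, indexed by
the Cantor space, of pairwise non-isomorphic structures. -/
def CountableOrPerfect [∀ i, TopologicalSpace (K i)] (B : Set (Str a K)) : Prop :=
  (∃ C : Set (Str a K), C.Countable ∧ ∀ M ∈ B, ∃ N ∈ C, Iso N M) ∨
  (∃ g : (ℕ → Bool) → Str a K, Continuous g ∧ (∀ c, g c ∈ B) ∧ ∀ c d, Iso (g c) (g d) → c = d)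

/-- `b` is the smallest set with the property `P` which contains some point `y`. -/
def Principal (P : Finset ℕ → Prop) (b : Finset ℕ) : Prop :=
  P b ∧ ∃ y ∈ b, ∀ c, P c → y ∈ c → b ⊆ c

/-- The sets with the property `P` are closed under unions and nonempty intersections, and each point lies
in a maximal principal set. -/
def Tame (P : Finset ℕ → Prop) : Prop :=
  (∀ b c, P b → P c → P (b ∪ c)) ∧ (∀ b c, P b → P c → (b ∩ c).Nonempty → P (b ∩ c)) ∧
    ∀ x, ∃ b, x ∈ b ∧ Principal P b ∧ ∀ c, Principal P c → b ⊆ c → c ⊆ b

/-- `N` is younger than `M` over `F`: every finite substructure of `N` which contains `F` embeds in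
`M` over `F`. -/
def Younger (F : Finset ℕ) (M N : Str a K) : Prop :=
  ∀ X : Finset ℕ, F ⊆ X → ∃ e : ℕ → ℕ, Set.InjOn e X ∧ (∀ p ∈ F, e p = p) ∧
    ∀ i (x : Fin (a i) → ℕ), (∀ j, x j ∈ X) → M i (e ∘ x) = N i x

/-- The space of quantifier-free types of `n`-tuples: the values of all functions at tuples of entries,
and the equalities between entries. -/
abbrev QFTypes (a : ℕ → ℕ) (K : ℕ → Type) (n : ℕ) : Type :=
  (∀ i, (Fin (a i) → Fin n) → K i) × (Fin n → Fin n → Bool)

/-- The quantifier-free type of the tuple `u` in `M`. -/
def qfType (M : Str a K) {n : ℕ} (u : Fin n → ℕ) : QFTypes a K n :=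
  (fun i t => M i (u ∘ t), fun p q => decide (u p = u q))

/-- The substructure of `M` on the set `b` is a model of the `Π₂` sentence `⋀_i ∀ x̄ ⋁_j ∃ ȳ ψ i j`. -/
def ModelPi {p : ℕ → ℕ} {q : ℕ → ℕ → ℕ} (ψ : ∀ i j, Set (QFTypes a K (p i + q i j)))
    (M : Str a K) (b : Set ℕ) : Prop :=
  ∀ (i : ℕ) (x : Fin (p i) → ℕ), (∀ c, x c ∈ b) → ∃ (j : ℕ) (y : Fin (q i j) → ℕ),
    (∀ c, y c ∈ b) ∧ qfType M (Fin.append x y) ∈ ψ i j

/-- `M` is a model of the `Σ₂` sentence `⋁_i ∃ ū ⋀_j ∀ v̄ φ i j`. -/
def ModelSigma {k : ℕ → ℕ} {l : ℕ → ℕ → ℕ} (φ : ∀ i j, Set (QFTypes a K (k i + l i j)))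
    (M : Str a K) : Prop :=
  ∃ (i : ℕ) (u : Fin (k i) → ℕ), ∀ (j : ℕ) (v : Fin (l i j) → ℕ),
    qfType M (Fin.append u v) ∈ φ i j

/-- Formulas which consist of existential quantifiers in front of a universal formula. -/
inductive ExUniv {L : FirstOrder.Language.{0, 0}} : ∀ {n : ℕ}, L.BoundedFormula Empty n → Prop
  | of_isUniversal {n : ℕ} {φ : L.BoundedFormula Empty n} (h : φ.IsUniversal) : ExUniv φ
  | ex {n : ℕ} {φ : L.BoundedFormula Empty (n + 1)} (h : ExUniv φ) : ExUniv φ.ex

/-- Formulas which consist of universal quantifiers in front of an existential formula. -/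
inductive UnivEx {L : FirstOrder.Language.{0, 0}} : ∀ {n : ℕ}, L.BoundedFormula Empty n → Prop
  | of_isExistential {n : ℕ} {φ : L.BoundedFormula Empty n} (h : φ.IsExistential) : UnivEx φ
  | all {n : ℕ} {φ : L.BoundedFormula Empty (n + 1)} (h : UnivEx φ) : UnivEx φ.all

/-- The finite set `b` is the set of points of a substructure of `S` which is a model of `T`. -/
def Submodel {L : FirstOrder.Language.{0, 0}} (T : L.Theory) (S : L.Structure ℕ)
    (b : Finset ℕ) : Prop :=
  ∃ A : @Substructure L ℕ S, (A : Set ℕ) = b ∧
    @Theory.Model L A (@Substructure.inducedStructure L ℕ S A) T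

/-- In the structure on `ℕ` the union of two substructures is a substructure, and each point lies in a
maximal 1-generated substructure, which has only finitely many generators. -/
def Disintegrated (L : FirstOrder.Language.{0, 0}) [L.Structure ℕ] : Prop :=
  (∀ (A B : L.Substructure ℕ) (x : ℕ), x ∈ A ⊔ B → x ∈ A ∨ x ∈ B) ∧
  ∀ x : ℕ, ∃ y : ℕ, x ∈ Substructure.closure L {y} ∧
    (∀ z : ℕ, Substructure.closure L {y} ≤ Substructure.closure L {z} →
      Substructure.closure L {z} = Substructure.closure L {y}) ∧
    {z : ℕ | Substructure.closure L {z} = Substructure.closure L {y}}.Finite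

/-- Vaught's conjecture, perfect-set form, for the theory `T` (exactly as in the frozen statement). -/
def Vaught {L : FirstOrder.Language.{0, 0}} (T : L.Theory) : Prop :=
  (∃ g : ℕ → L.Structure ℕ, ∀ S : L.Structure ℕ, @Theory.Model L ℕ S T →
    ∃ n : ℕ, Nonempty (@FirstOrder.Language.Equiv L ℕ ℕ S (g n))) ∨
  (∃ f : (ℕ → Bool) → L.Structure ℕ, (∀ x : ℕ → Bool, @Theory.Model L ℕ (f x) T) ∧
    (∀ x y : ℕ → Bool, Nonempty (@FirstOrder.Language.Equiv L ℕ ℕ (f x) (f y)) → x = y) ∧
    (∀ (n : ℕ) (R : L.Relations n) (a : Fin n → ℕ),
      IsClopen {x : ℕ → Bool | @Structure.RelMap L ℕ (f x) n R a}) ∧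
    (∀ (n : ℕ) (F : L.Functions n) (a : Fin n → ℕ) (b : ℕ),
      IsOpen {x : ℕ → Bool | @Structure.funMap L ℕ (f x) n F a = b}))

/-- The group `G` acts on `X` by continuous maps, the image of the homomorphism `h : Sym(ℕ) → G` has countable
index, and the action of `Sym(ℕ)`, with the topology of pointwise convergence, by `h` is continuous. -/
def ContinuousAction {G X : Type} [Group G] [TopologicalSpace X] [MulAction G X]
    (h : Equiv.Perm ℕ →* G) : Prop :=
  (∃ R : ℕ → G, ∀ g, ∃ (i : ℕ) (σ : Equiv.Perm ℕ), g = h σ * R i) ∧
  (∀ g : G, Continuous fun x : X => g • x) ∧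
  ∀ (σ : Equiv.Perm ℕ) (x : X) (U : Set X), IsOpen U → h σ • x ∈ U →
    ∃ (F : Finset ℕ) (V : Set X), IsOpen V ∧ x ∈ V ∧
      ∀ τ : Equiv.Perm ℕ, (∀ n ∈ F, τ n = σ n) → ∀ y ∈ V, h τ • y ∈ U

theorem isEU_of {L : FirstOrder.Language.{0, 0}} {n : ℕ} {φ : L.BoundedFormula Empty n}
    (h : ExUniv φ) : L7h71.UN.IsEU φ := by
  induction h with
  | of_isUniversal h => exact L7h71.UN.IsEU.of_isUniversal h
  | ex _ ih => exact L7h71.UN.IsEU.ex ih

theorem isUE_of {L : FirstOrder.Language.{0, 0}} {n : ℕ} {φ : L.BoundedFormula Empty n}
    (h : UnivEx φ) : L7h71.GB.IsUE φ := by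
  induction h with
  | of_isExistential h => exact L7h71.GB.IsUE.of_isExistential h
  | all _ ih => exact L7h71.GB.IsUE.all ih

theorem younger_iff {F : Finset ℕ} {M N : Str a K} : L7h66.UA.XYo F M N ↔ Younger F M N := by
  classical
  constructor
  · exact fun h X _ => h X
  · intro h X
    obtain ⟨e, h1, h2, h3⟩ := h (X ∪ F) Finset.subset_union_right
    exact ⟨e, h1.mono (by simp), h2, fun i x hx => h3 i x fun j => Finset.mem_union_left _ (hx j)⟩

theorem tame_iff {P : Finset ℕ → Prop} : Tame P ↔ L7h71.GD.TameP P := by
  have key : ∀ b, Principal P b ↔ ∃ y, L7h71.GD.Principal P b y :=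
    fun b => ⟨fun ⟨h, y, hy, h'⟩ => ⟨y, h, hy, h'⟩, fun ⟨y, h, hy, h'⟩ => ⟨h, y, hy, h'⟩⟩
  constructor
  · rintro ⟨h1, h2, h3⟩
    refine ⟨h1, h2, fun x => ?_⟩
    obtain ⟨b, hx, hb, hm⟩ := h3 x
    exact ⟨b, hx, (key b).1 hb, fun c z hc => hm c ((key c).2 ⟨z, hc⟩)⟩
  · rintro ⟨h1, h2, h3⟩
    refine ⟨h1, h2, fun x => ?_⟩
    obtain ⟨b, hx, hb, hm⟩ := h3 x
    refine ⟨b, hx, (key b).2 hb, fun c hc => ?_⟩
    obtain ⟨z, hz⟩ := (key c).1 hc
    exact hm c z hz

/-- It suffices that each point lies in a set with the property `P` which has at most `n` points. -/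
theorem tame_of_card_le {P : Finset ℕ → Prop} (h1 : ∀ b c, P b → P c → P (b ∪ c))
    (h2 : ∀ b c, P b → P c → (b ∩ c).Nonempty → P (b ∩ c))
    (h3 : ∃ n : ℕ, ∀ x, ∃ b, P b ∧ x ∈ b ∧ b.card ≤ n) : Tame P :=
  tame_iff.2 (L7h71.GD.TameP.of_bdd h1 h2 h3)

/-- (1) The dichotomy for `Σ₂` sentences. (2) The dichotomy for isomorphism-invariant `F_σ` classes. (3) The
dichotomy for analytic isomorphism-invariant classes `B` such that in each `M ∈ B` the finite submodels of the `Π₂`
sentence `ψ` are tame and for some finite set `F` all models of `ψ` which are younger than `M` over `F` are in `B`.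
(4) Vaught's conjecture for theories which consist of universal sentences and finitely many `∃∀` sentences, in
countable languages without function symbols of positive arity, or with disintegrated models. (5) Vaught's
conjecture for `∀∃` theories with tame finite submodels, with finitely many additional `∃∀` sentences. (6) Invariant
`σ`-compact sets for continuous actions of groups in which the permutations of `ℕ` have countable index. -/
theorem result :
    (∀ (a : ℕ → ℕ) (K : ℕ → Type) [∀ i, TopologicalSpace (K i)] [∀ i, PolishSpace (K i)]
      (k : ℕ → ℕ) (l : ℕ → ℕ → ℕ) (φ : ∀ i j, Set (QFTypes a K (k i + l i j))),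
      (∀ i j, AnalyticSet (φ i j)) → CountableOrPerfect {M : Str a K | ModelSigma φ M}) ∧
    (∀ (a : ℕ → ℕ) (K : ℕ → Type) [∀ i, TopologicalSpace (K i)] [∀ i, PolishSpace (K i)]
      (C : ℕ → Set (Str a K)), (∀ n, IsClosed (C n)) →
      (∀ M ∈ ⋃ n, C n, ∀ N, Iso M N → N ∈ ⋃ n, C n) → CountableOrPerfect (⋃ n, C n)) ∧
    (∀ (a : ℕ → ℕ) (K : ℕ → Type) [∀ i, TopologicalSpace (K i)] [∀ i, PolishSpace (K i)]
      (p : ℕ → ℕ) (q : ℕ → ℕ → ℕ) (ψ : ∀ i j, Set (QFTypes a K (p i + q i j)))
      (B : Set (Str a K)),
      (∀ i j, @MeasurableSet _ (borel (QFTypes a K (p i + q i j))) (ψ i j)) →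
      AnalyticSet B → (∀ M ∈ B, ∀ N, Iso M N → N ∈ B) →
      (∀ M ∈ B, Tame fun b => ModelPi ψ M b) →
      (∀ M ∈ B, ∃ F : Finset ℕ, ∀ N, ModelPi ψ N Set.univ → Younger F M N → N ∈ B) →
      CountableOrPerfect B) ∧
    (∀ L : FirstOrder.Language.{0, 0}, Countable L.Symbols → ∀ T : L.Theory,
      (∀ φ ∈ T, ExUniv φ) → {φ ∈ T | ¬ φ.IsUniversal}.Finite →
      ((∀ n, IsEmpty (L.Functions (n + 1))) ∨
        ∀ S : L.Structure ℕ, @Theory.Model L ℕ S T → ¬ @Structure.FG L ℕ S →
          @Disintegrated L S) → Vaught T) ∧
    (∀ L : FirstOrder.Language.{0, 0}, Countable L.Symbols → ∀ T₁ T₂ : L.Theory,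
      (∀ φ ∈ T₁, UnivEx φ) → (∀ φ ∈ T₂, ExUniv φ) → T₂.Finite →
      (∀ S : L.Structure ℕ, @Theory.Model L ℕ S (T₁ ∪ T₂) → Tame (Submodel T₁ S)) →
      Vaught (T₁ ∪ T₂)) ∧
    (∀ (G X : Type) [Group G] [MulAction G X] [TopologicalSpace X] [T2Space X]
      [SecondCountableTopology X] [TotallyDisconnectedSpace X] (h : Equiv.Perm ℕ →* G),
      ContinuousAction (X := X) h → ∀ C : ℕ → Set X, (∀ n, IsCompact (C n)) →
      (∀ g : G, ∀ x ∈ ⋃ n, C n, g • x ∈ ⋃ n, C n) →
      (∃ D : Set X, D.Countable ∧ ∀ x ∈ ⋃ n, C n, ∃ y ∈ D, ∃ g : G, g • y = x) ∨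
      (∃ f : (ℕ → Bool) → X, Continuous f ∧ (∀ c, f c ∈ ⋃ n, C n) ∧
        ∀ c d, (∃ g : G, g • f c = f d) → c = d)) := by
  refine ⟨fun a K _ _ k l φ hφ => L7h71.UA.sigma_two a K k l φ hφ,
    fun a K _ _ C hC hiso => L7h71.UA.Fsx.fsigma L7h71.UA.lrc a K C hC hiso,
    fun a K _ _ p q ψ B hψ hB hiso hT hloc => ?_, fun L hc T hT hfin hdis => ?_,
    fun L hc T₁ T₂ h1 h2 hfin hloc => ?_, fun G X _ _ _ _ _ _ h hX C hC hinv => ?_⟩
  · refine L7h71.GD.pi_gen L7h71.GD.gbm a K p q ψ hψ B hB hiso
      (fun M hM => tame_iff.1 (hT M hM)) fun M hM => ?_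
    obtain ⟨F, hF⟩ := hloc M hM
    exact ⟨F, fun N h1 h2 => hF N h1 (younger_iff.1 h2)⟩
  · rcases hdis with hL | hdis
    · exact L7h71.UA.foc L hc hL T hfin fun φ hφ => isEU_of (hT φ hφ)
    · exact L7h71.GD.gcs L hc T (fun φ hφ => isEU_of (hT φ hφ)) hfin hdis
  · exact L7h71.GD.foh L hc T₁ T₂ (fun φ hφ => isUE_of (h1 φ hφ))
      (fun φ hφ => isEU_of (h2 φ hφ)) hfin fun S hS => tame_iff.1 (hloc S hS)
  · exact L7h71.GB.s_TP2 L7h42.GB.s_TBA L7h75.GB.s_TIN L7h76.GB.s_TTH L7h71.UA.lrc G X h
      ⟨hX.1, hX.2.1, hX.2.2⟩ C hC hinv

end Pool.Agent.Results.MP_5df2c5_lc.SigmaTwoSentences
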